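import Pool.Agent.Lib.OneFac.Main
import Pool.Agent.Lib.OneFac.LineG
import Pool.Agent.Lib.OneFac.Numer

set_option autoImplicit false

/-! # MP_3e0925_co: the 1-factorization conjecture for all even n and
`d ≥ n/2 + 4 n^(3/4) (log (2n))^(1/4)` -/

namespace Pool.Agent.Results.MP_3e0925_co.ExplicitDense

open Pool.Agent.OneFac

/-- first part, for `n = 2 N` -/
private theorem aux (n : ℕ) (G : SimpleGraph (Fin n)) [DecidableRel G.Adj] (d : ℕ) (hn : Even n)
    (hreg : G.IsRegularOfDegree d)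
    (h : (n : ℝ) / 2 + 4 * (n : ℝ) ^ (3 / 4 : ℝ) * Real.log (2 * n) ^ (1 / 4 : ℝ) ≤ (d : ℝ)) :
    G.lineGraph.Colorable d := by
  obtain ⟨N, hN⟩ := hn
  have hnN : n = 2 * N := by omega
  rcases Nat.eq_zero_or_pos N with h0 | h0
  · subst hnN
    subst h0
    have : IsEmpty (G.edgeSet) := by
      refine ⟨fun e => ?_⟩
      obtain ⟨e, he⟩ := e
      induction e using Sym2.ind with
      | _ v w => exact Fin.elim0 v
    exact SimpleGraph.Colorable.of_isEmpty d
  · have hdn : d < 2 * N := by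
      have hv : (0 : ℕ) < n := by omega
      have := G.degree_lt_card_verts ⟨0, hv⟩
      rw [hreg.degree_eq, Fintype.card_fin] at this
      omega
    have hnb : ∀ v, nb G Finset.univ v = d := by
      intro v
      rw [← hreg.degree_eq v]
      unfold nb
      rw [← SimpleGraph.card_neighborFinset_eq_degree]
      congr 1
      ext w
      simp
    subst hnN
    obtain ⟨t, D, hD, ht, hcond⟩ := numer N d hdn h
    obtain ⟨σ, hσ⟩ := main_param G N d t D (Fintype.card_fin _) hnb hdn ht hD hcond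
    exact lineGraph_colorable G d hnb σ hσ

/-- Every `d`-regular graph on an even number `n` of vertices with
`d ≥ n/2 + 4 n^(3/4) (log (2n))^(1/4)` is `d`-edge-colourable; in particular every `d`-regular
graph with `n ≥ 10^6` even and `d ≥ 3n/4`. -/
theorem result :
    (∀ (n : ℕ) (G : SimpleGraph (Fin n)) [DecidableRel G.Adj] (d : ℕ), Even n →
      G.IsRegularOfDegree d →
      (n : ℝ) / 2 + 4 * (n : ℝ) ^ (3 / 4 : ℝ) * Real.log (2 * n) ^ (1 / 4 : ℝ) ≤ (d : ℝ) →
      G.lineGraph.Colorable d) ∧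
    (∀ (n : ℕ) (G : SimpleGraph (Fin n)) [DecidableRel G.Adj] (d : ℕ), Even n → 1000000 ≤ n →
      G.IsRegularOfDegree d → 3 * n ≤ 4 * d → G.lineGraph.Colorable d) := by
  refine ⟨fun n G _ d hn hreg h => aux n G d hn hreg h, fun n G _ d hn hn6 hreg h => ?_⟩
  refine aux n G d hn hreg ?_
  have hn' : (1000000 : ℝ) ≤ n := by exact_mod_cast hn6
  have hd' : 3 * (n : ℝ) ≤ 4 * d := by exact_mod_cast h
  have hn0 : (0 : ℝ) < n := by linarith
  -- log (2n) ≤ n / 65536
  have hlog : Real.log (2 * n) ≤ n / 65536 := by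
    have h1 : Real.log (2 * n) = Real.log 2097152 + Real.log (2 * n / 2097152) := by
      rw [← Real.log_mul (by norm_num) (by positivity)]
      congr 1
      ring
    have h2 : Real.log 2097152 = 21 * Real.log 2 := by
      rw [show (2097152 : ℝ) = 2 ^ 21 by norm_num, Real.log_pow]
      norm_num
    have h3 : Real.log (2 * n / 2097152) ≤ 2 * n / 2097152 - 1 :=
      Real.log_le_sub_one_of_pos (by positivity)
    have h4 := Real.log_two_lt_d9
    rw [h1, h2]
    linarith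
  have hlog0 : 0 ≤ Real.log (2 * n) := Real.log_nonneg (by linarith)
  have h5 : Real.log (2 * n) ^ (1 / 4 : ℝ) ≤ (n / 65536 : ℝ) ^ (1 / 4 : ℝ) :=
    Real.rpow_le_rpow hlog0 hlog (by norm_num)
  have h6 : (n / 65536 : ℝ) ^ (1 / 4 : ℝ) = (n : ℝ) ^ (1 / 4 : ℝ) / 16 := by
    rw [Real.div_rpow hn0.le (by norm_num)]
    congr 1
    rw [show (65536 : ℝ) = 16 ^ (4 : ℝ) by norm_num, ← Real.rpow_mul (by norm_num)]
    norm_num
  have h7 : (n : ℝ) ^ (3 / 4 : ℝ) * (n : ℝ) ^ (1 / 4 : ℝ) = n := by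
    rw [← Real.rpow_add hn0]
    norm_num
  have h8 : (0 : ℝ) ≤ (n : ℝ) ^ (3 / 4 : ℝ) := by positivity
  have h9 : 4 * (n : ℝ) ^ (3 / 4 : ℝ) * Real.log (2 * n) ^ (1 / 4 : ℝ) ≤ n / 4 := by
    calc 4 * (n : ℝ) ^ (3 / 4 : ℝ) * Real.log (2 * n) ^ (1 / 4 : ℝ)
        ≤ 4 * (n : ℝ) ^ (3 / 4 : ℝ) * ((n : ℝ) ^ (1 / 4 : ℝ) / 16) := by
          rw [← h6]
          exact mul_le_mul_of_nonneg_left h5 (by positivity)
      _ = ((n : ℝ) ^ (3 / 4 : ℝ) * (n : ℝ) ^ (1 / 4 : ℝ)) / 4 := by ring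
      _ = n / 4 := by rw [h7]
  linarith

end Pool.Agent.Results.MP_3e0925_co.ExplicitDense
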